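import Pool.Agent.helper22.GS.Spec

set_option autoImplicit false

namespace Pool.Agent.GS

open Module

theorem CN_scalar {F V : Type} [Field F] [AddCommGroup V] [Module F V] (z : Equiv.Perm V)
    (hz : Lin F z) (h : ∀ v, ∃ c : F, z v = c • v) : ∃ c : F, ∀ v, z v = c • v := by
  by_cases h0 : ∀ v : V, v = 0
  · refine ⟨0, fun v => ?_⟩
    rw [h0 v, zero_smul]
    have := hz.2 0 (0 : V)
    rwa [zero_smul, zero_smul] at this
  push Not at h0
  obtain ⟨v0, hv0⟩ := h0
  obtain ⟨c, hc⟩ := h v0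
  refine ⟨c, fun v => ?_⟩
  by_cases hd : ∃ a : F, v = a • v0
  · obtain ⟨a, rfl⟩ := hd
    rw [hz.2, hc, smul_comm]
  · obtain ⟨cv, hcv⟩ := h v
    obtain ⟨d, hd2⟩ := h (v + v0)
    rw [hz.1, hcv, hc, smul_add] at hd2
    have e1 : (d - cv) • v = (c - d) • v0 := by
      rw [sub_smul, sub_smul, sub_eq_sub_iff_add_eq_add, ← hd2]
      abel
    have e2 : d = cv := by
      by_contra hne
      apply hd
      refine ⟨(d - cv)⁻¹ * (c - d), ?_⟩
      rw [mul_smul, ← e1, smul_smul, inv_mul_cancel₀ (sub_ne_zero.2 hne), one_smul]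
    rw [e2, sub_self, zero_smul] at e1
    rcases smul_eq_zero.1 e1.symm with h1 | h1
    · rw [hcv, sub_eq_zero.1 h1]
    · exact absurd h1 hv0

theorem CN : CN_stmt := by
  intro F V _ _ _ _ B hB hdim z hz hcom
  apply CN_scalar z hz.1
  intro v
  by_cases hv : v = 0
  · refine ⟨0, ?_⟩
    rw [hv, zero_smul]
    have := hz.1.2 0 (0 : V)
    rwa [zero_smul, zero_smul] at this
  obtain ⟨c, hc⟩ := hcom (tv B v 1) (tv_mem hB v 1)
  have key : ∀ w, tv B (z v) 1 w = c • tv B v 1 w := by
    intro w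
    have h1 := hc (tv B v 1 w)
    rw [tv_conj_sp hB hz, Equiv.Perm.mul_apply, invp] at h1
    exact h1
  simp only [tv_apply hB, one_mul] at key
  -- a vector orthogonal to both
  obtain ⟨w, hw0, hw1, hw2⟩ : ∃ w : V, w ≠ 0 ∧ B w v = 0 ∧ B w (z v) = 0 := by
    let L : V →ₗ[F] F × F := (B.flip v).prod (B.flip (z v))
    have h1 := LinearMap.finrank_range_add_finrank_ker L
    have h2 : finrank F (LinearMap.range L) ≤ 2 := by
      refine (Submodule.finrank_le _).trans ?_
      simp
    have h3 : LinearMap.ker L ≠ ⊥ := by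
      intro h
      rw [h, finrank_bot] at h1
      omega
    obtain ⟨w, hw, hw0⟩ := Submodule.exists_mem_ne_zero_of_ne_bot h3
    have h4 : L w = 0 := hw
    exact ⟨w, hw0, congrArg Prod.fst h4, congrArg Prod.snd h4⟩
  have hc1 : c = 1 := by
    have h1 := key w
    rw [hw1, hw2, zero_smul, zero_smul, add_zero] at h1
    have h2 : (1 - c) • w = 0 := by
      rw [sub_smul, one_smul, ← h1, sub_self]
    rcases smul_eq_zero.1 h2 with h3 | h3
    · exact (sub_eq_zero.1 h3).symm
    · exact absurd h3 hw0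
  subst hc1
  have key2 : ∀ w, B w (z v) • z v = B w v • v := by
    intro w
    have h1 := key w
    rw [one_smul] at h1
    exact add_left_cancel h1
  obtain ⟨u, hu⟩ : ∃ u, B u v ≠ 0 := by
    by_contra hcon
    push Not at hcon
    apply hv
    apply hB.nd
    intro u
    rw [hB.neg, hcon u, neg_zero]
  have h1 := key2 u
  have h2 : B u (z v) ≠ 0 := by
    intro h3
    rw [h3, zero_smul] at h1
    rcases smul_eq_zero.1 h1.symm with h4 | h4
    · exact hu h4
    · exact hv h4
  refine ⟨(B u (z v))⁻¹ * B u v, ?_⟩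
  rw [mul_smul, ← h1, smul_smul, inv_mul_cancel₀ h2, one_smul]

end Pool.Agent.GS
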